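import Pool.Agent.MP_6a4325_al.H62.Base

/-!
Row FURST: an element with an eigenvalue of modulus greater than one is detected by a real
character of a subgroup of finite index.
-/

set_option autoImplicit false

namespace Pool.Agent.MP_6a4325_al.H43

open Matrix Pool.Agent.MP_6a4325_al.H62

theorem det_ne {G : Type} [Group G] {n : ℕ} (ρ : G →* Matrix (Fin n) (Fin n) ℂ) (g : G) :
    (ρ g).det ≠ 0 := by
  intro h0
  have h1 : (ρ g).det * (ρ g⁻¹).det = 1 := by
    rw [← Matrix.det_mul, ← map_mul, mul_inv_cancel, map_one, Matrix.det_one]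
  rw [h0, zero_mul] at h1
  exact zero_ne_one h1

/-- the logarithm of the modulus of the determinant -/
noncomputable def logDet {G : Type} [Group G] {n : ℕ} (ρ : G →* Matrix (Fin n) (Fin n) ℂ) :
    Additive (⊤ : Subgroup G) →+ ℝ where
  toFun g := Real.log ‖(ρ (Additive.toMul g : (⊤ : Subgroup G))).det‖
  map_zero' := by simp
  map_add' a b := by
    rw [toMul_add, Subgroup.coe_mul, map_mul, Matrix.det_mul, norm_mul,
      Real.log_mul (norm_ne_zero_iff.mpr (det_ne ρ _)) (norm_ne_zero_iff.mpr (det_ne ρ _))]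

theorem irr (hM : SMeas) (G : Type) [Group G] (hA : Amen G) (n : ℕ)
    (ρ : G →* Matrix (Fin n) (Fin n) ℂ) (hI : SIr ρ) (y : G) (v : Fin n → ℂ) (c : ℂ)
    (hv : v ≠ 0) (hc : 1 < ‖c‖) (h : ρ y *ᵥ v = c • v) : Det y := by
  obtain ⟨c0, hc0, hb⟩ := hM ℂ G hA n ρ hI
  refine ⟨⊤, inferInstance, logDet ρ, 1, trivial, fun h0 => ?_⟩
  have h1 : Real.log ‖(ρ (y ^ 1)).det‖ = 0 := h0
  rw [pow_one] at h1
  have h2 : ‖(ρ y).det‖ = 1 :=
    Real.eq_one_of_pos_of_log_eq_zero (norm_pos_iff.mpr (det_ne ρ y)) h1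
  obtain ⟨i, hi⟩ : ∃ i, v i ≠ 0 := Function.ne_iff.mp hv
  have hn : n ≠ 0 := by
    rintro rfl
    exact i.elim0
  have hpow : ∀ j : ℕ, ρ (y ^ j) *ᵥ v = c ^ j • v := by
    intro j
    induction j with
    | zero => simp
    | succ j ih =>
      rw [pow_succ, map_mul, ← Matrix.mulVec_mulVec, h, Matrix.mulVec_smul, ih, smul_smul,
        pow_succ']
  have hent : ∀ (j : ℕ) (l : Fin n), ‖ρ (y ^ j) i l‖ ≤ max 1 c0⁻¹ := by
    intro j l
    have h3 := hb (y ^ j) i l
    rw [map_pow ρ y j, Matrix.det_pow, norm_pow, h2, one_pow, ← map_pow ρ y j] at h3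
    by_cases h4 : ‖ρ (y ^ j) i l‖ ≤ 1
    · exact h4.trans (le_max_left _ _)
    · have h5 : ‖ρ (y ^ j) i l‖ ≤ ‖ρ (y ^ j) i l‖ ^ n := le_self_pow₀ (not_le.mp h4).le hn
      have h6 : ‖ρ (y ^ j) i l‖ ^ n ≤ c0⁻¹ := by
        rw [inv_eq_one_div, le_div_iff₀ hc0, mul_comm]
        exact h3
      exact (h5.trans h6).trans (le_max_right _ _)
  have hbd : ∀ j : ℕ, ‖c‖ ^ j * ‖v i‖ ≤ max 1 c0⁻¹ * ∑ l, ‖v l‖ := by
    intro j
    have h3 : c ^ j * v i = ∑ l, ρ (y ^ j) i l * v l := by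
      have := congrFun (hpow j) i
      rw [Pi.smul_apply, smul_eq_mul] at this
      rw [← this]
      rfl
    rw [← norm_pow, ← norm_mul, h3, Finset.mul_sum]
    refine (norm_sum_le _ _).trans (Finset.sum_le_sum fun l _ => ?_)
    rw [norm_mul]
    exact mul_le_mul_of_nonneg_right (hent j l) (norm_nonneg _)
  have hvi : 0 < ‖v i‖ := norm_pos_iff.mpr hi
  obtain ⟨j, hj⟩ := pow_unbounded_of_one_lt ((max 1 c0⁻¹ * ∑ l, ‖v l‖) / ‖v i‖) hc
  rw [div_lt_iff₀ hvi] at hj
  exact absurd (hbd j) (not_le.mpr hj)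

theorem furstV (hM : SMeas) (n : ℕ) : ∀ (G : Type) [Group G], (∀ K : Subgroup G, Amen K) →
    ∀ (V : Type) [AddCommGroup V] [Module ℂ V] [FiniteDimensional ℂ V],
      Module.finrank ℂ V = n → ∀ (ρ : Representation ℂ G V) (y : G) (v : V) (c : ℂ),
        v ≠ 0 → 1 < ‖c‖ → ρ y v = c • v → Det y := by
  induction n using Nat.strong_induction_on with
  | _ n ih =>
  intro G _ hA V _ _ _ hn ρ y v c hv hc h
  by_cases hI : ∀ K : Subgroup G, K.FiniteIndex → ∀ U : Submodule ℂ V,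
      (∀ g ∈ K, ∀ u ∈ U, ρ g u ∈ U) → U = ⊥ ∨ U = ⊤
  · let b : Module.Basis (Fin n) ℂ V := Module.finBasisOfFinrankEq ℂ V hn
    let ρ' : G →* Matrix (Fin n) (Fin n) ℂ :=
      (LinearMap.toMatrixAlgEquiv b).toMulEquiv.toMonoidHom.comp ρ
    have hρ' : ∀ (g : G) (u : V), ρ' g *ᵥ b.equivFun u = b.equivFun (ρ g u) := fun g u =>
      LinearMap.toMatrix_mulVec_repr b b (ρ g) u
    refine irr hM G (amen_of_sub hA) n ρ' ?_ y (b.equivFun v) c ?_ hc ?_
    · intro K hK U hU
      have h1 := hI K hK (U.comap b.equivFun.toLinearMap) fun g hg u hu => by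
        have h2 := hU g hg _ hu
        change ρ' g *ᵥ b.equivFun u ∈ U at h2
        rw [hρ'] at h2
        exact h2
      have h3 : U = (U.comap b.equivFun.toLinearMap).map b.equivFun.toLinearMap :=
        (Submodule.map_comap_eq_of_surjective b.equivFun.surjective U).symm
      rcases h1 with h1 | h1
      · left
        rw [h3, h1, Submodule.map_bot]
      · right
        rw [h3, h1, Submodule.map_top, LinearEquiv.range]
    · exact fun h0 => hv (b.equivFun.map_eq_zero_iff.mp h0)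
    · rw [hρ', h, map_smul]
  · push Not at hI
    obtain ⟨K, hK, U, hU, hb, ht⟩ := hI
    obtain ⟨k, hk, -, hyk⟩ := Subgroup.exists_pow_mem_of_index_ne_zero hK.index_ne_zero y
    have hpow : ∀ j : ℕ, ρ (y ^ j) v = c ^ j • v := by
      intro j
      induction j with
      | zero => simp
      | succ j ihj =>
        rw [pow_succ, map_mul, Module.End.mul_apply, h, map_smul, ihj, smul_smul, pow_succ']
    have hck : 1 < ‖c ^ k‖ := by
      rw [norm_pow]
      exact one_lt_pow₀ hc hk.ne'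
    let σ : Representation ℂ K V := ρ.comp K.subtype
    have hle : ∀ g : K, U ≤ U.comap (σ g) := fun g u hu => hU g g.2 u hu
    have hsum := U.finrank_quotient_add_finrank
    refine Det.of_sub K hK k hyk ?_
    by_cases hvU : v ∈ U
    · have hlt : Module.finrank ℂ U < n := hn ▸ Submodule.finrank_lt ht
      refine ih _ hlt K (amen_sub_sub hA K) U rfl (σ.subrepresentation U hle) ⟨y ^ k, hyk⟩
        ⟨v, hvU⟩ (c ^ k) (fun h0 => hv (congrArg Subtype.val h0)) hck ?_
      exact Subtype.ext (hpow k)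
    · have hpos : 0 < Module.finrank ℂ U := by
        rw [Nat.pos_iff_ne_zero]
        exact fun h0 => hb (Submodule.finrank_eq_zero.mp h0)
      have hlt : Module.finrank ℂ (V ⧸ U) < n := by omega
      refine ih _ hlt K (amen_sub_sub hA K) (V ⧸ U) rfl (σ.quotient U hle) ⟨y ^ k, hyk⟩
        (U.mkQ v) (c ^ k) (fun h0 => hvU ((Submodule.Quotient.mk_eq_zero U).mp h0)) hck ?_
      rw [← map_smul, ← hpow k]
      rfl

theorem furst : SMeas → SFurst := by
  intro hM G _ hA n ρ y v c hv hc h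
  exact furstV hM n G hA (Fin n → ℂ) (by simp)
    ((Matrix.toLinAlgEquiv' (R := ℂ) (n := Fin n)).toMulEquiv.toMonoidHom.comp ρ) y v c hv hc h

open Classical in
/-- the function `y ^ j ↦ 2 ^ j`, zero off the cyclic group -/
noncomputable def phi {G : Type} [Group G] (y g : G) : ℚ :=
  if h : ∃ j : ℤ, y ^ j = g then (2 : ℚ) ^ h.choose else 0

theorem phi_zpow {G : Type} [Group G] {y : G} (hy : ¬ IsOfFinOrder y) (j : ℤ) :
    phi y (y ^ j) = 2 ^ j := by
  have h : ∃ i : ℤ, y ^ i = y ^ j := ⟨j, rfl⟩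
  have h1 : h.choose = j := (injective_zpow_iff_not_isOfFinOrder.mpr hy) h.choose_spec
  rw [phi, dif_pos h, h1]

theorem phi_mul {G : Type} [Group G] {y : G} (hy : ¬ IsOfFinOrder y) (g : G) :
    phi y (g * y) = 2 * phi y g := by
  by_cases h : ∃ j : ℤ, y ^ j = g
  · obtain ⟨j, rfl⟩ := h
    rw [← _root_.zpow_add_one, phi_zpow hy, phi_zpow hy, zpow_add_one₀ two_ne_zero, mul_comm]
  · have h' : ¬ ∃ j : ℤ, y ^ j = g * y := by
      rintro ⟨j, hj⟩
      exact h ⟨j - 1, by rw [_root_.zpow_sub_one, hj, mul_inv_cancel_right]⟩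
    rw [phi, phi, dif_neg h, dif_neg h', mul_zero]

theorem vrc : SSpec → SFurst → SVrc := by
  intro hS hF G _ hG hW y hy
  let x : MonoidAlgebra ℚ G := MonoidAlgebra.single y 1 - MonoidAlgebra.single 1 2
  have h1 : Sol G {x} := by
    refine hW.w1 {x} fun T hT => span_ne_top_of_fun (phi y) ?_ _ fun z hz g => ?_
    · have := phi_zpow hy 0
      rw [zpow_zero] at this
      rw [this]
      norm_num
    · have hz' : z = x := hT hz
      change lam (fun h => phi y (g * h)) z = 0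
      rw [hz', map_sub, lam_single, lam_single, phi_mul hy, mul_one, one_smul, smul_eq_mul,
        sub_self]
  obtain ⟨n, ρ, v, hv, hx⟩ := hS G hG _ h1
  have h2 := hx x rfl
  rw [map_sub, act_single, act_single, map_one, one_smul, Matrix.sub_mulVec, sub_eq_zero,
    Matrix.smul_mulVec, Matrix.one_mulVec] at h2
  have : Algebra.IsAlgebraic ℚ Qb := AlgebraicClosure.isAlgebraic ℚ
  let σ : Qb →+* ℂ := (IsAlgClosed.lift : Qb →ₐ[ℚ] ℂ).toRingHom
  refine hF G hW.amen_sub n (σ.mapMatrix.toMonoidHom.comp ρ) y (σ ∘ v) 2 ?_ (by norm_num) ?_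
  · intro h0
    apply hv
    funext i
    exact σ.injective ((congrFun h0 i).trans (map_zero σ).symm)
  · funext i
    have h3 := RingHom.map_mulVec σ (ρ y) v i
    change ((ρ y).map σ *ᵥ (σ ∘ v)) i = _
    rw [← h3, h2, Pi.smul_apply, Pi.smul_apply, Function.comp_apply, Rat.smul_def, map_mul,
      smul_eq_mul, map_ratCast]
    norm_num

end Pool.Agent.MP_6a4325_al.H43
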